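import Pool.Agent.Lib.MP_e1f7e2_al.SU.Iface

set_option autoImplicit false

/-! Module BRF: brackets and frames. -/

open MvPolynomial

namespace Pool.Agent.Lib.MP_e1f7e2_al.SU.H1

section

variable {K : Type*} [Field K] {w : Fin 3 → ℝ}

lemma xyz_ne : (X 0 * X 1 * X 2 : MvPolynomial (Fin 3) K) ≠ 0 := by
  simp [X_ne_zero]

lemma fr_rhs_ne {c : K} (hc : c ≠ 0) :
    (C c * (X 0 * X 1 * X 2) : MvPolynomial (Fin 3) K) ≠ 0 := by
  refine mul_ne_zero ?_ xyz_ne
  simpa using hc

lemma dg_xyz (hd : DegFacts K w) {c : K} (hc : c ≠ 0) :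
    dg w (C c * (X 0 * X 1 * X 2) : MvPolynomial (Fin 3) K) = sg w := by
  rw [hd.Cmul _ _ hc, hd.mul _ _ (mul_ne_zero (X_ne_zero _) (X_ne_zero _)) (X_ne_zero _),
    hd.mul _ _ (X_ne_zero _) (X_ne_zero _), hd.X', hd.X', hd.X']
  rfl

lemma cne {f g h : MvPolynomial (Fin 3) K} (H : Fr f g h) : cr (D f) (D g) ≠ 0 := by
  intro h0
  obtain ⟨c, hc, h1⟩ := H.rot'
  rw [h0] at h1
  have : dt (D h) (0 : Fin 3 → MvPolynomial (Fin 3) K) = 0 := by simp [dt]
  rw [this] at h1
  exact fr_rhs_ne hc h1.symm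

lemma br_ne {f g : MvPolynomial (Fin 3) K} (hv : VecFacts K w) (h : 0 < br w f g) :
    cr (D f) (D g) ≠ 0 := by
  intro h0
  unfold br at h
  rw [h0, hv.zero] at h
  exact lt_irrefl _ h

lemma cc_D (f : MvPolynomial (Fin 3) K) (i : Fin 3) : constantCoeff (D f i) = 0 := by
  simp [D]

lemma cc_cr (f g : MvPolynomial (Fin 3) K) (i : Fin 3) :
    constantCoeff (cr (D f) (D g) i) = 0 := by
  fin_cases i <;> simp [cr, cc_D]

lemma dv_zero_comp (hd : DegFacts K w) {u : Fin 3 → MvPolynomial (Fin 3) K} (h : dv w u ≤ 0)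
    (i : Fin 3) : dg w (u i) = 0 := by
  apply le_antisymm _ (hd.nn _)
  unfold dv at h
  fin_cases i
  · exact le_trans (le_max_left _ _) h
  · exact le_trans (le_trans (le_max_left _ _) (le_max_right _ _)) h
  · exact le_trans (le_trans (le_max_right _ _) (le_max_right _ _)) h

lemma bpos (hd : DegFacts K w) {f g h : MvPolynomial (Fin 3) K}
    (H : Fr f g h) : 0 < br w f g := by
  by_contra hle
  push Not at hle
  apply cne H
  funext i
  obtain ⟨c, hc⟩ := hd.of_zero _ (dv_zero_comp hd hle i)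
  have h1 := cc_cr f g i
  rw [hc, constantCoeff_C] at h1
  rw [hc, h1]
  simp

lemma dpos (hd : DegFacts K w) {f g h : MvPolynomial (Fin 3) K} (H : Fr f g h) :
    0 < dg w f := by
  by_contra hle
  push Not at hle
  obtain ⟨c, hc⟩ := hd.of_zero _ (le_antisymm hle (hd.nn _))
  apply cne H
  rw [hc, D_C, cr_zero_left]

lemma wt_nsmul (n : ℕ) (α : Fin 3 →₀ ℕ) : wt w (n • α) = n * wt w α := by
  simp only [wt, Finsupp.smul_apply, smul_eq_mul, Finset.mul_sum]
  apply Finset.sum_congr rfl
  intro i _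
  push_cast
  ring

lemma dg_mono {α : Fin 3 →₀ ℕ} {c : K} (hc : c ≠ 0) : dg w (monomial α c) = wt w α := by
  have hs : (monomial α c : MvPolynomial (Fin 3) K).support = {α} := by
    classical
    rw [support_monomial, if_neg hc]
  have hn : (monomial α c : MvPolynomial (Fin 3) K).support.Nonempty := by rw [hs]; simp
  unfold dg
  rw [dif_pos hn]
  simp only [hs]
  simp

/-- leading decomposition -/
lemma leadDec (hd : DegFacts K w) (f : MvPolynomial (Fin 3) K) (hf : 0 < dg w f) :
    ∃ (α : Fin 3 →₀ ℕ) (c : K), c ≠ 0 ∧ dg w f = wt w α ∧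
      dg w (f - C c * monomial α 1) < dg w f := by
  obtain ⟨α, hα⟩ := hd.val f
  have h1 : dg w f = dg w (monomial α (1 : K)) := by rw [dg_mono one_ne_zero, hα]
  obtain ⟨c, hc, h2⟩ := hd.lead f (monomial α 1) hf h1
  exact ⟨α, c, hc, hα, h2⟩

lemma D_mono (α : Fin 3 →₀ ℕ) (i : Fin 3) :
    D (monomial α (1 : K)) i = C (α i : K) * monomial α 1 := by
  unfold D
  rw [pderiv_monomial, one_mul]
  by_cases h : α i = 0
  · simp [h]
  · have hle : Finsupp.single i 1 ≤ α := by
      rw [Finsupp.single_le_iff]; omega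
    have e : Finsupp.single i 1 + (α - Finsupp.single i 1) = α := by
      rw [add_comm]; exact tsub_add_cancel_of_le hle
    rw [X, monomial_mul, C_mul_monomial, one_mul, mul_one, e]

lemma cr_mono (α β : Fin 3 →₀ ℕ) (p q : ℕ) (hq : 0 < q) [CharZero K]
    (h : ∀ i, q * α i = p * β i) :
    cr (D (monomial α (1 : K))) (D (monomial β (1 : K))) = 0 := by
  have key : ∀ i j : Fin 3, (α i : K) * (β j : K) = (α j : K) * (β i : K) := by
    intro i j
    have hq0 : (q : K) ≠ 0 := by exact_mod_cast hq.ne'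
    apply mul_left_cancel₀ hq0
    have hi : (q : K) * α i = p * β i := by exact_mod_cast h i
    have hj : (q : K) * α j = p * β j := by exact_mod_cast h j
    rw [← mul_assoc, ← mul_assoc, hi, hj]
    ring
  have key2 : ∀ i j : Fin 3, (C (α i : K) * C (β j : K) : MvPolynomial (Fin 3) K) =
      C (α j : K) * C (β i : K) := by
    intro i j
    rw [← map_mul, ← map_mul, key i j]
  funext i
  fin_cases i
  · show D (monomial α (1 : K)) 1 * D (monomial β (1 : K)) 2 -
      D (monomial α (1 : K)) 2 * D (monomial β (1 : K)) 1 = 0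
    rw [D_mono, D_mono, D_mono, D_mono]
    linear_combination (monomial α (1 : K) * monomial β (1 : K)) * key2 1 2
  · show D (monomial α (1 : K)) 2 * D (monomial β (1 : K)) 0 -
      D (monomial α (1 : K)) 0 * D (monomial β (1 : K)) 2 = 0
    rw [D_mono, D_mono, D_mono, D_mono]
    linear_combination (monomial α (1 : K) * monomial β (1 : K)) * key2 2 0
  · show D (monomial α (1 : K)) 0 * D (monomial β (1 : K)) 1 -
      D (monomial α (1 : K)) 1 * D (monomial β (1 : K)) 0 = 0
    rw [D_mono, D_mono, D_mono, D_mono]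
    linear_combination (monomial α (1 : K) * monomial β (1 : K)) * key2 0 1

lemma par [CharZero K] (hw : Gen w) (hd : DegFacts K w) (hv : VecFacts K w)
    (f g : MvPolynomial (Fin 3) K) (p q : ℕ) (hp : 0 < p) (hq : 0 < q) (hf : 0 < dg w f)
    (hpq : q * dg w f = p * dg w g) : br w f g < dg w f + dg w g := by
  have hg : 0 < dg w g := by
    have h1 : (0 : ℝ) < q * dg w f := by positivity
    rw [hpq] at h1
    by_contra hcon
    push Not at hcon
    have h2 : (p : ℝ) * dg w g ≤ 0 := mul_nonpos_of_nonneg_of_nonpos (by positivity) hcon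
    linarith
  obtain ⟨α, c, hc, hα, h1⟩ := leadDec hd f hf
  obtain ⟨β, d, hd', hβ, h2⟩ := leadDec hd g hg
  have hαβ : q • α = p • β := by
    apply hw.inj
    rw [wt_nsmul, wt_nsmul, ← hα, ← hβ, hpq]
  have hαβ' : ∀ i, q * α i = p * β i := by
    intro i
    have := DFunLike.congr_fun hαβ i
    simpa using this
  set mα : MvPolynomial (Fin 3) K := C c * monomial α 1 with hmα
  set mβ : MvPolynomial (Fin 3) K := C d * monomial β 1 with hmβ
  have e1 : D f = D mα + D (f - mα) := by rw [D_sub]; abel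
  have e2 : D g = D mβ + D (g - mβ) := by rw [D_sub]; abel
  have e0 : cr (D mα) (D mβ) = 0 := by
    rw [hmα, hmβ, D_Cmul, D_Cmul, cr_smul_left, cr_smul_right, cr_mono α β p q hq hαβ']
    simp
  have e3 : cr (D f) (D g) = cr (D mα) (D (g - mβ)) + cr (D (f - mα)) (D g) := by
    conv_lhs => rw [e1, cr_add_left]
    congr 1
    conv_lhs => rw [e2, cr_add_right, e0, zero_add]
  have hmα' : dg w mα = dg w f := by
    rw [hmα, hd.Cmul _ _ hc, dg_mono one_ne_zero, hα]
  unfold br
  rw [e3]
  refine lt_of_le_of_lt (hv.add_le _ _) (max_lt ?_ ?_)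
  · refine lt_of_le_of_lt (hv.cr_le _ _) ?_
    rw [hv.D', hv.D', hmα']
    linarith
  · refine lt_of_le_of_lt (hv.cr_le _ _) ?_
    rw [hv.D', hv.D']
    linarith

/-- vanishing derivatives -/
lemma const_of_pderiv [CharZero K] (P : MvPolynomial (Fin 2) K) (h0 : pderiv 0 P = 0)
    (h1 : pderiv 1 P = 0) : ∃ c : K, P = C c := by
  refine ⟨coeff 0 P, ?_⟩
  ext m
  rw [coeff_C]
  split_ifs with hm
  · rw [hm]
  · have hm' : m 0 ≠ 0 ∨ m 1 ≠ 0 := by
      by_contra hcon
      push Not at hcon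
      apply hm
      ext i
      fin_cases i
      · exact hcon.1.symm
      · exact hcon.2.symm
    have aux : ∀ i : Fin 2, m i ≠ 0 → pderiv i P = 0 → coeff m P = 0 := by
      intro i hi hP
      have hle : Finsupp.single i 1 ≤ m := by
        rw [Finsupp.single_le_iff]; omega
      have h2 := coeff_pderiv (i := i) P (m - Finsupp.single i 1)
      rw [tsub_add_cancel_of_le hle, hP, coeff_zero] at h2
      rcases mul_eq_zero.mp h2.symm with h4 | h4
      · exact h4
      · exact absurd h4 (Nat.cast_add_one_ne_zero _)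
    rcases hm' with h | h
    · exact aux 0 h h0
    · exact aux 1 h h1

lemma totalDegree_pderiv_le (P : MvPolynomial (Fin 2) K) (i : Fin 2) (n : ℕ)
    (h : P.totalDegree ≤ n + 1) : (pderiv i P).totalDegree ≤ n := by
  unfold totalDegree
  apply Finset.sup_le
  intro m hm
  rw [mem_support_iff, coeff_pderiv] at hm
  have h1 : m + Finsupp.single i 1 ∈ P.support := by
    rw [mem_support_iff]
    exact left_ne_zero_of_mul hm
  have h2 := le_trans (le_totalDegree h1) h
  have h3 : ((m + Finsupp.single i 1).sum fun _ e => e) = (m.sum fun _ e => e) + 1 := by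
    rw [Finsupp.sum_add_index' (fun _ => rfl) (fun _ _ _ => rfl)]
    simp
  rw [h3] at h2
  exact Nat.le_of_succ_le_succ h2

lemma inj [CharZero K] (f g : MvPolynomial (Fin 3) K) (hne : cr (D f) (D g) ≠ 0) (n : ℕ) :
    ∀ P : MvPolynomial (Fin 2) K, P.totalDegree ≤ n → ev P f g = 0 → P = 0 := by
  have der : ∀ P : MvPolynomial (Fin 2) K, ev P f g = 0 →
      ev (pderiv 0 P) f g = 0 ∧ ev (pderiv 1 P) f g = 0 := by
    intro P hP
    have h1 := D_ev P f g
    rw [hP, D_zero] at h1
    constructor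
    · have h2 : cr (0 : Fin 3 → MvPolynomial (Fin 3) K) (D g) =
          ev (pderiv 0 P) f g • cr (D f) (D g) := by
        rw [h1, cr_add_left, cr_smul_left, cr_smul_left, cr_self, smul_zero, add_zero]
      rw [cr_zero_left] at h2
      rcases smul_eq_zero.mp h2.symm with h3 | h3
      · exact h3
      · exact absurd h3 hne
    · have h2 : cr (D f) (0 : Fin 3 → MvPolynomial (Fin 3) K) =
          ev (pderiv 1 P) f g • cr (D f) (D g) := by
        rw [h1, cr_add_right, cr_smul_right, cr_smul_right, cr_self, smul_zero, zero_add]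
      rw [cr_zero_right] at h2
      rcases smul_eq_zero.mp h2.symm with h3 | h3
      · exact h3
      · exact absurd h3 hne
  have fin : ∀ P : MvPolynomial (Fin 2) K, ev P f g = 0 → pderiv 0 P = 0 → pderiv 1 P = 0 →
      P = 0 := by
    intro P hP h0 h1
    obtain ⟨c, hc⟩ := const_of_pderiv P h0 h1
    rw [hc, ev_C] at hP
    rw [hc]
    have : c = 0 := by simpa using hP
    rw [this, map_zero]
  induction n with
  | zero =>
    intro P hn hP
    have h1 : P = C (coeff 0 P) := by
      apply totalDegree_eq_zero_iff_eq_C.mp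
      omega
    apply fin P hP
    · rw [h1]; exact pderiv_C
    · rw [h1]; exact pderiv_C
  | succ n ih =>
    intro P hn hP
    obtain ⟨h0, h1⟩ := der P hP
    exact fin P hP (ih _ (totalDegree_pderiv_le P 0 n hn) h0)
      (ih _ (totalDegree_pderiv_le P 1 n hn) h1)

lemma sgle (hd : DegFacts K w) (hv : VecFacts K w) {f g h : MvPolynomial (Fin 3) K}
    (H : Fr f g h) : sg w ≤ dg w f + br w g h := by
  obtain ⟨c, hc, h1⟩ := H
  rw [← dg_xyz hd hc, ← h1]
  refine le_trans (hv.dt_le _ _) ?_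
  rw [hv.D']
  rfl

/-- Euler derivation -/
lemma euler [CharZero K] (hd : DegFacts K w) (hv : VecFacts K w)
    (f : MvPolynomial (Fin 3) K)
    (hf : 0 < dg w f) : dg w (dt (D f) (fun _ => 1)) = dg w f := by
  obtain ⟨α, c, hc, hα, h1⟩ := leadDec hd f hf
  set mα : MvPolynomial (Fin 3) K := C c * monomial α 1 with hmα
  have e1 : D f = D mα + D (f - mα) := by rw [D_sub]; abel
  have e2 : dt (D mα) (fun _ => 1) = C (((α 0 + α 1 + α 2 : ℕ) : K) * c) * monomial α 1 := by
    rw [hmα, D_Cmul, dt_smul_left]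
    simp only [dt, D_mono, mul_one]
    push_cast
    simp only [map_mul, map_add]
    ring
  have hs : (((α 0 + α 1 + α 2 : ℕ) : K) * c) ≠ 0 := by
    apply mul_ne_zero _ hc
    intro h0
    have h0' : α 0 + α 1 + α 2 = 0 := by exact_mod_cast h0
    have h00 : α 0 = 0 := by omega
    have h01 : α 1 = 0 := by omega
    have h02 : α 2 = 0 := by omega
    rw [hα] at hf
    unfold wt at hf
    rw [Fin.sum_univ_three, h00, h01, h02] at hf
    simp at hf
  have e3 : dg w (dt (D mα) (fun _ => 1)) = dg w f := by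
    rw [e2, hd.Cmul _ _ hs, dg_mono one_ne_zero, hα]
  have e4 : dg w (dt (D (f - mα)) (fun _ => 1)) < dg w f := by
    refine lt_of_le_of_lt (hv.dt_le _ _) ?_
    rw [hv.D']
    have : dv w (fun _ => (1 : MvPolynomial (Fin 3) K)) = 0 := by
      have h1 : dg w (1 : MvPolynomial (Fin 3) K) = 0 := by
        have := hd.const 1
        rwa [map_one] at this
      simp [dv, h1]
    rw [this, add_zero]
    exact h1
  rw [e1, dt_add_left, hd.add_left _ _ (by rw [e3]; exact e4), e3]

lemma comm (hv : VecFacts K w) (f g : MvPolynomial (Fin 3) K) : br w f g = br w g f := by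
  unfold br
  rw [cr_anti, hv.neg]

lemma two [CharZero K] (hd : DegFacts K w) (hv : VecFacts K w)
    {f g h : MvPolynomial (Fin 3) K} (H : Fr f g h) :
    dg w f + br w g h ≤ dg w g + br w f h ∨ dg w f + br w g h ≤ dg w h + br w f g := by
  by_contra hcon
  push Not at hcon
  obtain ⟨h1, h2⟩ := hcon
  set t : Fin 3 → MvPolynomial (Fin 3) K := fun _ => 1 with ht
  have id := vec_identity (D f) (D g) (D h) t
  have hf := dpos hd H
  have hg := dpos hd H.rot
  have hh := dpos hd H.rot'
  have ef := euler hd hv f hf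
  have eg := euler hd hv g hg
  have eh := euler hd hv h hh
  rw [← ht] at ef eg eh
  have nef : dt (D f) t ≠ 0 := by
    intro h0; rw [h0, hd.zero] at ef; linarith
  have neg' : dt (D g) t ≠ 0 := by
    intro h0; rw [h0, hd.zero] at eg; linarith
  have neh : dt (D h) t ≠ 0 := by
    intro h0; rw [h0, hd.zero] at eh; linarith
  have n1 := cne H.rot
  have n2 := cne H.rot'
  have n3 := cne H
  have v1 : dv w (dt (D f) t • cr (D g) (D h)) = dg w f + br w g h := by
    rw [hv.smul _ _ nef n1, ef]; rfl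
  have v2 : dv w (dt (D g) t • cr (D h) (D f)) = dg w g + br w f h := by
    rw [hv.smul _ _ neg' n2, eg, comm hv f h]; rfl
  have v3 : dv w (dt (D h) t • cr (D f) (D g)) = dg w h + br w f g := by
    rw [hv.smul _ _ neh n3, eh]; rfl
  have v12 : dv w (dt (D f) t • cr (D g) (D h) + dt (D g) t • cr (D h) (D f)) =
      dg w f + br w g h := by
    rw [hv.add_left _ _ (by rw [v1, v2]; exact h1), v1]
  have v123 : dv w (dt (D f) t • cr (D g) (D h) + dt (D g) t • cr (D h) (D f) +
      dt (D h) t • cr (D f) (D g)) = dg w f + br w g h := by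
    rw [hv.add_left _ _ (by rw [v12, v3]; exact h2), v12]
  rw [id] at v123
  obtain ⟨c, hc, h3⟩ := H
  rw [h3] at v123
  have v4 : dv w ((C c * (X 0 * X 1 * X 2) : MvPolynomial (Fin 3) K) • t) = sg w := by
    simp only [dv, Pi.smul_apply, smul_eq_mul, ht, mul_one, max_self]
    exact dg_xyz hd hc
  rw [v4] at v123
  have h5 : sg w ≤ dg w g + br w f h := by
    have H' : Fr f g h := ⟨c, hc, h3⟩
    have := sgle hd hv H'.rot
    rwa [comm hv h f] at this
  linarith

lemma t1 (hv : VecFacts K w) (f g : MvPolynomial (Fin 3) K) (P : MvPolynomial (Fin 2) K)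
    (h1 : ev (pderiv 1 P) f g ≠ 0) (h2 : cr (D f) (D g) ≠ 0) :
    dg w (ev (pderiv 1 P) f g) + br w f g ≤ dg w (ev P f g) + dg w f := by
  have e : cr (D f) (D (ev P f g)) = ev (pderiv 1 P) f g • cr (D f) (D g) := by
    rw [D_ev, cr_add_right, cr_smul_right, cr_smul_right, cr_self, smul_zero, zero_add]
  have := hv.smul _ _ h1 h2
  rw [← e] at this
  unfold br
  rw [← this]
  refine le_trans (hv.cr_le _ _) ?_
  rw [hv.D', hv.D']
  linarith

lemma t1' (hv : VecFacts K w) (f g : MvPolynomial (Fin 3) K) (P : MvPolynomial (Fin 2) K)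
    (h1 : ev (pderiv 0 P) f g ≠ 0) (h2 : cr (D f) (D g) ≠ 0) :
    dg w (ev (pderiv 0 P) f g) + br w f g ≤ dg w (ev P f g) + dg w g := by
  have e : cr (D (ev P f g)) (D g) = ev (pderiv 0 P) f g • cr (D f) (D g) := by
    rw [D_ev, cr_add_left, cr_smul_left, cr_smul_left, cr_self, smul_zero, add_zero]
  have := hv.smul _ _ h1 h2
  rw [← e] at this
  unfold br
  rw [← this]
  refine le_trans (hv.cr_le _ _) ?_
  rw [hv.D', hv.D']

lemma t2 (hd : DegFacts K w) (hv : VecFacts K w) (f g h : MvPolynomial (Fin 3) K)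
    (P : MvPolynomial (Fin 2) K) (H : Fr f g h) (h1 : ev (pderiv 1 P) f g ≠ 0) :
    dg w (ev (pderiv 1 P) f g) + sg w ≤ dg w (ev P f g) + br w f h := by
  obtain ⟨c, hc, h2⟩ := H.swap12
  have e : dt (D (ev P f g)) (cr (D f) (D h)) =
      ev (pderiv 1 P) f g * (C c * (X 0 * X 1 * X 2)) := by
    rw [D_ev, dt_add_left, dt_smul_left, dt_smul_left, dt_cr_self_left, mul_zero, zero_add, h2]
  have h3 := hd.mul _ _ h1 (fr_rhs_ne hc)
  rw [← e, dg_xyz hd hc] at h3
  rw [← h3]
  refine le_trans (hv.dt_le _ _) ?_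
  rw [hv.D']
  rfl

lemma t2' (hd : DegFacts K w) (hv : VecFacts K w) (f g h : MvPolynomial (Fin 3) K)
    (P : MvPolynomial (Fin 2) K) (H : Fr f g h) (h1 : ev (pderiv 0 P) f g ≠ 0) :
    dg w (ev (pderiv 0 P) f g) + sg w ≤ dg w (ev P f g) + br w g h := by
  obtain ⟨c, hc, h2⟩ := H
  have e : dt (D (ev P f g)) (cr (D g) (D h)) =
      ev (pderiv 0 P) f g * (C c * (X 0 * X 1 * X 2)) := by
    rw [D_ev, dt_add_left, dt_smul_left, dt_smul_left, dt_cr_self_left, mul_zero, add_zero, h2]
  have h3 := hd.mul _ _ h1 (fr_rhs_ne hc)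
  rw [← e, dg_xyz hd hc] at h3
  rw [← h3]
  refine le_trans (hv.dt_le _ _) ?_
  rw [hv.D']
  rfl

/-- module BRF -/
theorem brf [CharZero K] (hw : Gen w) (hd : DegFacts K w) (hv : VecFacts K w) :
    BrFacts K w where
  nn f g := hv.nn _
  comm f g := comm hv f g
  le f g := by
    refine le_trans (hv.cr_le _ _) ?_
    rw [hv.D', hv.D']
  Cmul c f g hc := by
    unfold br
    rw [D_Cmul, cr_smul_left, hv.Csmul _ _ hc]
  addC c f g := by
    unfold br
    rw [D_add, D_C, add_zero]
  par f g p q hp hq hf h := par hw hd hv f g p q hp hq hf h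
  dpos f g h H := dpos hd H
  bpos f g h H := bpos hd H
  cne f g h H := cne H
  inj f g P hb hP := inj f g (br_ne hv hb) P.totalDegree P le_rfl hP
  sgpos := by
    have h0 := hw.pos 0
    have h1 := hw.pos 1
    have h2 := hw.pos 2
    unfold sg
    linarith
  sgle f g h H := sgle hd hv H
  two f g h H := two hd hv H
  t1 f g P h1 h2 := t1 hv f g P h1 h2
  t1' f g P h1 h2 := t1' hv f g P h1 h2
  t2 f g h P H h1 := t2 hd hv f g h P H h1
  t2' f g h P H h1 := t2' hd hv f g h P H h1

end

end Pool.Agent.Lib.MP_e1f7e2_al.SU.H1
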