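import Pool.Agent.Lib.MP_e1f7e2_al.SU.Iface2

set_option autoImplicit false

/-! Module CHOICE: the choice of the polynomial `f`. -/

open MvPolynomial

namespace Pool.Agent.Lib.MP_e1f7e2_al.SU.H1

section

variable {K : Type*} [Field K] {w : Fin 3 → ℝ}

/-- the degree is attained -/
lemma dg_att {g : MvPolynomial (Fin 3) K} (hg : g ≠ 0) :
    ∃ α : Fin 3 →₀ ℕ, coeff α g ≠ 0 ∧ dg w g = wt w α := by
  have hs : g.support.Nonempty := by
    rw [Finset.nonempty_iff_ne_empty]
    intro h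
    exact hg (support_eq_empty.mp h)
  obtain ⟨α, hα, h⟩ := Finset.exists_mem_eq_sup' hs (wt w)
  refine ⟨α, mem_support_iff.mp hα, ?_⟩
  unfold dg
  rw [dif_pos hs, h]

lemma wt_nsmul' (n : ℕ) (α : Fin 3 →₀ ℕ) : wt w (n • α) = n * wt w α := by
  simp only [wt, Finsupp.smul_apply, smul_eq_mul, Finset.mul_sum]
  apply Finset.sum_congr rfl
  intro i _
  push_cast
  ring

/-- exponents commensurable with `β` are proportional to `β` -/
lemma wt_prop (hw : Gen w) {α β : Fin 3 →₀ ℕ} {r : ℚ} (hr : 0 ≤ r)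
    (h : wt w α = r * wt w β) (i : Fin 3) : (α i : ℚ) = r * β i := by
  have hden : (r.den : ℚ) ≠ 0 := by exact_mod_cast r.den_nz
  have hnum : r.num = (r.num.toNat : ℤ) := by
    rw [Int.toNat_of_nonneg (Rat.num_nonneg.mpr hr)]
  have hr' : (r.den : ℝ) * (r : ℝ) = (r.num.toNat : ℝ) := by
    have h1 : (r.den : ℚ) * r = (r.num.toNat : ℚ) := by
      have h2 := Rat.den_mul_eq_num r
      rw [h2]
      exact_mod_cast hnum
    exact_mod_cast h1
  have e : r.den • α = r.num.toNat • β := by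
    apply hw.inj
    rw [wt_nsmul', wt_nsmul', h, ← mul_assoc, hr']
  have e' := DFunLike.congr_fun e i
  simp only [Finsupp.smul_apply, smul_eq_mul] at e'
  have e2 : (r.den : ℚ) * α i = r.num.toNat * β i := by exact_mod_cast e'
  have h1 : (r.den : ℚ) * r = (r.num.toNat : ℚ) := by
    have h2 := Rat.den_mul_eq_num r
    rw [h2]
    exact_mod_cast hnum
  apply mul_left_cancel₀ hden
  rw [e2, ← h1, mul_assoc]

/-- monomials in `X 1, X 2` -/
lemma mon_eq (i j : ℕ) : (X 1 ^ i * X 2 ^ j : MvPolynomial (Fin 3) K) =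
    monomial (Finsupp.single 1 i + Finsupp.single 2 j) 1 := by
  rw [X_pow_eq_monomial, X_pow_eq_monomial, monomial_mul, one_mul]

lemma mon_ind {n : ℕ} (a : Fin n × Fin n → K)
    (h : ∑ p : Fin n × Fin n, C (a p) * (X 1 ^ (p.1 : ℕ) * X 2 ^ (p.2 : ℕ)) =
      (0 : MvPolynomial (Fin 3) K)) : a = 0 := by
  classical
  funext p
  have h1 := congrArg (coeff (Finsupp.single 1 (p.1 : ℕ) + Finsupp.single 2 (p.2 : ℕ))) h
  rw [coeff_sum, coeff_zero] at h1
  rw [Finset.sum_eq_single p] at h1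
  · rw [mon_eq, coeff_C_mul, coeff_monomial, if_pos rfl, mul_one] at h1
    exact h1
  · intro q _ hq
    rw [mon_eq, coeff_C_mul, coeff_monomial, if_neg, mul_zero]
    intro h2
    apply hq
    have e1 := DFunLike.congr_fun h2 1
    have e2 := DFunLike.congr_fun h2 2
    simp at e1 e2
    exact Prod.ext (Fin.ext e1) (Fin.ext e2)
  · intro h2
    exact absurd (Finset.mem_univ _) h2

/-- two elements of `K[X 1, X 2]` whose images have incommensurable degrees -/
lemma incomm (hw : Gen w) (hd : DegFacts K w)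
    (ψ : MvPolynomial (Fin 3) K ≃ₐ[K] MvPolynomial (Fin 3) K) :
    ∃ f1 f2 : MvPolynomial (Fin 3) K, f1 ∈ Ad K ∧ f2 ∈ Ad K ∧ 0 < dg w (ψ.symm f1) ∧
      0 < dg w (ψ.symm f2) ∧ ∀ r : ℚ, dg w (ψ.symm f1) ≠ r * dg w (ψ.symm f2) := by
  classical
  by_contra hcon
  push Not at hcon
  have hX1 : (X 1 : MvPolynomial (Fin 3) K) ∈ Ad K := Algebra.subset_adjoin (by simp)
  have hX2 : (X 2 : MvPolynomial (Fin 3) K) ∈ Ad K := Algebra.subset_adjoin (by simp)
  have pos1 : 0 < dg w (ψ.symm (X 1)) := by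
    by_contra hle
    push Not at hle
    obtain ⟨c, hc⟩ := hd.of_zero _ (le_antisymm hle (hd.nn _))
    have h1 : (X 1 : MvPolynomial (Fin 3) K) = C c := by
      have h2 := congrArg ψ hc
      rw [AlgEquiv.apply_symm_apply] at h2
      rw [h2]
      exact ψ.commutes c
    have h2 := congrArg (dg w) h1
    rw [hd.X', hd.const] at h2
    have := hw.pos 1
    linarith
  have all : ∀ f ∈ Ad K, 0 < dg w (ψ.symm f) →
      ∃ r : ℚ, dg w (ψ.symm f) = r * dg w (ψ.symm (X 1)) :=
    fun f hf hp => hcon f (X 1) hf hX1 hp pos1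
  obtain ⟨β, hβ⟩ := hd.val (ψ.symm (X 1))
  set b := dg w (ψ.symm (X 1)) with hb
  have hβi : ∃ i, β i ≠ 0 := by
    by_contra h
    push Not at h
    rw [hβ] at pos1
    unfold wt at pos1
    rw [Finset.sum_eq_zero (fun i _ => by rw [h i]; simp)] at pos1
    exact lt_irrefl _ pos1
  obtain ⟨i, hi⟩ := hβi
  have hwi := hw.pos i
  set Dm : ℝ := max b (dg w (ψ.symm (X 2))) with hDm
  have hDm0 : 0 < Dm := lt_of_lt_of_le pos1 (le_max_left _ _)
  -- choose n
  obtain ⟨n, hn⟩ := exists_nat_gt (2 * Dm / w i + 1)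
  have hn1 : (1 : ℝ) < n := by
    have : 0 < 2 * Dm / w i := by positivity
    linarith
  -- the finite set of exponents
  have finL : {α : Fin 3 →₀ ℕ | wt w α ≤ 2 * n * Dm ∧ ∃ r : ℚ, wt w α = r * b}.Finite := by
    have h1 := hd.fin (2 * n * Dm)
    have h2 : Set.Finite ((wt w) ⁻¹' {x : ℝ | x ≤ 2 * n * Dm ∧ ∃ α : Fin 3 →₀ ℕ, x = wt w α}) :=
      h1.preimage (fun α _ β _ h => hw.inj α β h)
    refine h2.subset ?_
    rintro α ⟨hα, _⟩
    exact ⟨hα, α, rfl⟩
  set L := finL.toFinset with hL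
  have memL : ∀ α, α ∈ L ↔ wt w α ≤ 2 * n * Dm ∧ ∃ r : ℚ, wt w α = r * b := by
    intro α
    rw [hL, Set.Finite.mem_toFinset]
    rfl
  have wt_nn : ∀ α : Fin 3 →₀ ℕ, 0 ≤ wt w α := by
    intro α
    apply Finset.sum_nonneg
    intro j _
    have := hw.pos j
    positivity
  -- cardinality
  have cardL : (L.card : ℝ) ≤ 2 * n * Dm / w i + 1 := by
    have h1 : L.card ≤ (Finset.range (⌊2 * n * Dm / w i⌋₊ + 1)).card := by
      apply Finset.card_le_card_of_injOn (fun α => α i)
      · intro α hα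
        have hα' := ((memL α).mp hα).1
        simp only [Finset.coe_range, Set.mem_Iio]
        rw [Nat.lt_add_one_iff]
        apply Nat.le_floor
        rw [le_div_iff₀ hwi]
        refine le_trans ?_ hα'
        unfold wt
        apply Finset.single_le_sum (f := fun j => (α j : ℝ) * w j) _ (Finset.mem_univ i)
        intro j _
        have := hw.pos j
        positivity
      · intro α hα α' hα' h
        obtain ⟨_, r, hr⟩ := (memL α).mp hα
        obtain ⟨_, r', hr'⟩ := (memL α').mp hα'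
        have hr0 : 0 ≤ r := by
          have h1 := wt_nn α
          rw [hr] at h1
          have h2 : (0 : ℝ) ≤ r := nonneg_of_mul_nonneg_left h1 pos1
          exact_mod_cast h2
        have hr0' : 0 ≤ r' := by
          have h1 := wt_nn α'
          rw [hr'] at h1
          have h2 : (0 : ℝ) ≤ r' := nonneg_of_mul_nonneg_left h1 pos1
          exact_mod_cast h2
        have e1 := wt_prop hw hr0 (hβ ▸ hr) i
        have e2 := wt_prop hw hr0' (hβ ▸ hr') i
        have h' : α i = α' i := h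
        rw [h', e2] at e1
        have hβ0 : (β i : ℚ) ≠ 0 := by exact_mod_cast hi
        have hrr : r' = r := mul_right_cancel₀ hβ0 e1
        apply hw.inj
        rw [hr, hr', hrr]
    rw [Finset.card_range] at h1
    have h2 : (L.card : ℝ) ≤ ((⌊2 * n * Dm / w i⌋₊ + 1 : ℕ) : ℝ) := by exact_mod_cast h1
    refine le_trans h2 ?_
    push_cast
    have := Nat.floor_le (a := 2 * n * Dm / w i) (by positivity)
    linarith
  -- the linear map
  let Ψ : (Fin n × Fin n → K) →ₗ[K] MvPolynomial (Fin 3) K :=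
    { toFun := fun a => ∑ p : Fin n × Fin n, C (a p) * (X 1 ^ (p.1 : ℕ) * X 2 ^ (p.2 : ℕ))
      map_add' := by
        intro a a'
        rw [← Finset.sum_add_distrib]
        apply Finset.sum_congr rfl
        intro p _
        rw [Pi.add_apply, map_add, add_mul]
      map_smul' := by
        intro c a
        rw [RingHom.id_apply, Finset.smul_sum]
        apply Finset.sum_congr rfl
        intro p _
        rw [Pi.smul_apply, smul_eq_mul, map_mul, smul_eq_C_mul, mul_assoc] }
  let Φ : (Fin n × Fin n → K) →ₗ[K] (L → K) :=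
    LinearMap.pi (fun α => (lcoeff K (α : Fin 3 →₀ ℕ)) ∘ₗ ψ.symm.toLinearMap ∘ₗ Ψ)
  have hΦ : ∀ a (α : L), Φ a α = coeff (α : Fin 3 →₀ ℕ) (ψ.symm (Ψ a)) := by
    intro a α
    rfl
  have hΨAd : ∀ a, Ψ a ∈ Ad K := by
    intro a
    apply Subalgebra.sum_mem
    intro p _
    apply Subalgebra.mul_mem
    · exact Subalgebra.algebraMap_mem _ (a p)
    · exact Subalgebra.mul_mem _ (Subalgebra.pow_mem _ hX1 _) (Subalgebra.pow_mem _ hX2 _)
  have hΨdg : ∀ a, dg w (ψ.symm (Ψ a)) ≤ 2 * n * Dm := by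
    intro a
    have e : ψ.symm (Ψ a) = ∑ p : Fin n × Fin n,
        C (a p) * (ψ.symm (X 1) ^ (p.1 : ℕ) * ψ.symm (X 2) ^ (p.2 : ℕ)) := by
      show ψ.symm (∑ p : Fin n × Fin n, C (a p) * (X 1 ^ (p.1 : ℕ) * X 2 ^ (p.2 : ℕ))) = _
      rw [map_sum]
      apply Finset.sum_congr rfl
      intro p _
      rw [map_mul, map_mul, map_pow, map_pow]
      congr 1
      exact ψ.symm.commutes (a p)
    rw [e]
    refine hd.sum_le (Fin n × Fin n) _ _ _ (by positivity) ?_
    intro p _
    refine le_trans (hd.Cmul_le _ _) (le_trans (hd.mul_le _ _) ?_)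
    rw [hd.pow, hd.pow]
    have h1 : (p.1 : ℕ) * dg w (ψ.symm (X 1)) ≤ n * Dm := by
      apply mul_le_mul _ (le_max_left _ _) (le_of_lt pos1) (by positivity)
      exact_mod_cast p.1.isLt.le
    have h2 : (p.2 : ℕ) * dg w (ψ.symm (X 2)) ≤ n * Dm := by
      apply mul_le_mul _ (le_max_right _ _) (hd.nn _) (by positivity)
      exact_mod_cast p.2.isLt.le
    linarith
  have hinj : Function.Injective Φ := by
    rw [← LinearMap.ker_eq_bot, LinearMap.ker_eq_bot']
    intro a ha
    apply mon_ind a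
    show Ψ a = 0
    by_contra hne
    have hg : ψ.symm (Ψ a) ≠ 0 := by
      intro h0
      apply hne
      have := congrArg ψ h0
      rwa [AlgEquiv.apply_symm_apply, map_zero] at this
    obtain ⟨α, hα, hwα⟩ := dg_att (w := w) hg
    have hαL : α ∈ L := by
      rw [memL]
      refine ⟨by rw [← hwα]; exact hΨdg a, ?_⟩
      rcases eq_or_lt_of_le (hd.nn (ψ.symm (Ψ a))) with h0 | h0
      · exact ⟨0, by rw [← hwα, ← h0]; simp⟩
      · obtain ⟨r, hr⟩ := all _ (hΨAd a) h0
        exact ⟨r, by rw [← hwα, hr]⟩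
    apply hα
    have := congrFun ha ⟨α, hαL⟩
    rw [hΦ] at this
    exact this
  have hrank := LinearMap.finrank_le_finrank_of_injective hinj
  rw [Module.finrank_pi, Module.finrank_pi, Fintype.card_prod, Fintype.card_fin,
    Fintype.card_coe] at hrank
  have hrank' : (n : ℝ) * n ≤ L.card := by exact_mod_cast hrank
  have h3 : (n : ℝ) * n ≤ 2 * n * Dm / w i + 1 := le_trans hrank' cardL
  have h4 : (n : ℝ) * (2 * Dm / w i + 1) < n * n := by
    apply mul_lt_mul_of_pos_left hn
    linarith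
  have h5 : 2 * n * Dm / w i = n * (2 * Dm / w i) := by ring
  rw [h5] at h3
  nlinarith

lemma pos_of_mul_pos_left_aux {x y : ℝ} (hy : 0 < y) (h : 0 < x * y) : 0 < x := by
  by_contra hx
  push Not at hx
  have := mul_nonpos_of_nonpos_of_nonneg hx hy.le
  linarith

/-- module CHOICE -/
theorem choice (hw : Gen w) (hd : DegFacts K w) : ChoiceStatement K w := by
  classical
  intro ψ E
  obtain ⟨f1, f2, hf1, hf2, ha, hb, hab⟩ := incomm hw hd ψ
  set a := dg w (ψ.symm f1) with hadef
  set b := dg w (ψ.symm f2) with hbdef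
  have deg_n : ∀ n : ℕ, dg w (ψ.symm (f1 ^ n * f2)) = n * a + b := by
    intro n
    have h1 : ψ.symm f1 ≠ 0 := by
      intro h0; rw [hadef, h0, hd.zero] at ha; exact lt_irrefl _ ha
    have h2 : ψ.symm f2 ≠ 0 := by
      intro h0; rw [hbdef, h0, hd.zero] at hb; exact lt_irrefl _ hb
    rw [map_mul, map_pow, hd.mul _ _ (pow_ne_zero _ h1) h2, hd.pow]
  by_contra hcon
  push Not at hcon
  have hbad : ∀ n : ℕ, ∃ e ∈ E, 0 < e ∧ ∃ r : ℚ, n * a + b = r * e := by
    intro n
    have hmem : f1 ^ n * f2 ∈ Ad K := Subalgebra.mul_mem _ (Subalgebra.pow_mem _ hf1 _) hf2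
    have hpos : 0 < dg w (ψ.symm (f1 ^ n * f2)) := by rw [deg_n]; positivity
    obtain ⟨e, he, he0, r, hr⟩ := hcon _ hmem hpos
    rw [deg_n] at hr
    exact ⟨e, he, he0, r, hr⟩
  choose φ hφE hφ0 hφr using hbad
  have hcard : E.card < (Finset.range (E.card + 1)).card := by simp
  obtain ⟨n, _, m, _, hnm, hφnm⟩ :=
    Finset.exists_ne_map_eq_of_card_lt_of_maps_to hcard (f := φ) (fun n _ => hφE n)
  obtain ⟨r, hr⟩ := hφr n
  obtain ⟨s, hs⟩ := hφr m
  rw [hφnm] at hr
  have he0 := hφ0 m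
  set e := φ m with he
  have hspos : (0 : ℝ) < s := by
    have h1 : 0 < (m : ℝ) * a + b := by positivity
    rw [hs] at h1
    exact pos_of_mul_pos_left_aux he0 h1
  set t : ℚ := r / s with ht
  have h1 : (n : ℝ) * a + b = t * (m * a + b) := by
    rw [hr, hs, ht]
    push_cast
    field_simp
  by_cases ht1 : t = 1
  · rw [ht1] at h1
    have h2 : ((n : ℝ) - m) * a = 0 := by push_cast at h1; linarith
    rcases mul_eq_zero.mp h2 with h3 | h3
    · apply hnm
      have h4 : (n : ℝ) = m := by linarith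
      exact_mod_cast h4
    · linarith
  · have ht2 : (t : ℝ) - 1 ≠ 0 := by
      intro h0
      apply ht1
      have : (t : ℝ) = 1 := by linarith
      exact_mod_cast this
    set ρ : ℚ := (n - t * m) / (t - 1) with hρ
    have h2 : b = ρ * a := by
      rw [hρ]
      push_cast
      rw [div_mul_eq_mul_div, eq_div_iff ht2]
      linarith
    have h3 : (ρ : ℝ) ≠ 0 := by
      intro h0
      rw [h0, zero_mul] at h2
      linarith
    apply hab ρ⁻¹
    rw [h2]
    push_cast
    field_simp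

end

end Pool.Agent.Lib.MP_e1f7e2_al.SU.H1
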